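import Mathlib
import Pool.Agent.Y811.PC.Stm

/-!
# Project PC, task PC-MAXP: the maximum principle on the rectangle
-/

set_option autoImplicit false

namespace Pool.Agent.Y983.PC

open Complex Metric Set Filter Topology Pool.Agent.Y811.PC

/-- the open rectangle -/
def Rect (δ : ℝ) : Set ℂ := {x : ℂ | |x.re| < δ ∧ |x.im - 2 * Real.pi| < δ}

lemma isOpen_rect (δ : ℝ) : IsOpen (Rect δ) := by
  apply IsOpen.inter
  · exact isOpen_lt (continuous_abs.comp continuous_re) continuous_const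
  · exact isOpen_lt (continuous_abs.comp (continuous_im.sub continuous_const)) continuous_const

lemma closure_rect (δ : ℝ) :
    closure (Rect δ) ⊆ {x : ℂ | |x.re| ≤ δ ∧ |x.im - 2 * Real.pi| ≤ δ} := by
  apply closure_minimal
  · intro x hx
    exact ⟨hx.1.le, hx.2.le⟩
  · apply IsClosed.inter
    · exact isClosed_le (continuous_abs.comp continuous_re) continuous_const
    · exact isClosed_le (continuous_abs.comp (continuous_im.sub continuous_const)) continuous_const

lemma frontier_rect (δ : ℝ) : frontier (Rect δ) ⊆ Bd δ := by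
  intro x hx
  rw [frontier, (isOpen_rect δ).interior_eq] at hx
  obtain ⟨h1, h2⟩ := hx
  obtain ⟨h3, h4⟩ := closure_rect δ h1
  refine ⟨h3, h4, ?_⟩
  by_contra hne
  push Not at hne
  exact h2 ⟨lt_of_le_of_ne h3 hne.1, lt_of_le_of_ne h4 hne.2⟩

lemma xi_le {δ : ℝ} (h1 : δ < 1) {x : ℂ} (hx : x ∈ Bd δ) : xi δ x ≤ 3 := by
  obtain ⟨h3, h4, -⟩ := hx
  unfold xi
  refine (Complex.norm_le_abs_re_add_abs_im _).trans ?_
  have e1 : (x - ((2 * Real.pi + δ : ℝ) : ℂ) * I).re = x.re := by simp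
  have e2 : (x - ((2 * Real.pi + δ : ℝ) : ℂ) * I).im = x.im - 2 * Real.pi - δ := by
    simp
    ring
  rw [e1, e2]
  have h5 : |x.im - 2 * Real.pi - δ| ≤ |x.im - 2 * Real.pi| + |δ| := abs_sub _ _
  have h6 : |δ| = δ := abs_of_nonneg ((abs_nonneg _).trans h3)
  linarith

lemma bounded_rect (δ : ℝ) : Bornology.IsBounded (Rect δ) := by
  rw [isBounded_iff_forall_norm_le]
  refine ⟨δ + (δ + 2 * Real.pi), fun x hx => ?_⟩
  refine (Complex.norm_le_abs_re_add_abs_im _).trans ?_
  have h1 := hx.1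
  have h2 := abs_lt.1 hx.2
  have hpi := Real.pi_pos
  have h3 : |x.im| ≤ δ + 2 * Real.pi := by
    rw [abs_le]
    constructor <;> linarith [h2.1, h2.2]
  linarith [h1.le]

theorem t_MAXP : S_MAXP := by
  intro δ hδ hδ1 M n C F hC hn hF hb1 hb2 x hx1 hx2
  have hF' : DiffContOnCl ℂ F (Rect δ) := hF
  set a : ℂ := ((2 * Real.pi + δ : ℝ) : ℂ) * I with ha
  have hH : DiffContOnCl ℂ (fun z => F z * (z - a) ^ M) (Rect δ) := by
    have h1 : DiffContOnCl ℂ (fun z : ℂ => (z - a) ^ M) (Rect δ) :=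
      Differentiable.diffContOnCl (by fun_prop)
    have h2 := h1.smul hF'
    have e : (fun z => F z * (z - a) ^ M) = fun z => (z - a) ^ M • F z := by
      funext z
      rw [smul_eq_mul, mul_comm]
    rw [e]
    exact h2
  have hfr : ∀ z ∈ frontier (Rect δ), ‖F z * (z - a) ^ M‖ ≤ C * 3 ^ M := by
    intro z hz
    have hz' := frontier_rect δ hz
    have h0 : 0 ≤ xi δ z := norm_nonneg _
    have h3 := xi_le hδ1 hz'
    have e : ‖F z * (z - a) ^ M‖ = ‖F z‖ * xi δ z ^ M := by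
      rw [norm_mul, norm_pow]
      rfl
    rw [e]
    have hp : xi δ z ^ M ≤ 3 ^ M := pow_le_pow_left₀ h0 h3 M
    by_cases hc : 1 ≤ n * xi δ z ^ M
    · exact mul_le_mul (hb2 z hz' hc) hp (by positivity) hC
    · push Not at hc
      calc ‖F z‖ * xi δ z ^ M ≤ (C * n) * xi δ z ^ M :=
            mul_le_mul_of_nonneg_right (hb1 z hz') (by positivity)
        _ = C * (n * xi δ z ^ M) := by ring
        _ ≤ C * 1 := mul_le_mul_of_nonneg_left hc.le hC
        _ ≤ C * 3 ^ M := mul_le_mul_of_nonneg_left (one_le_pow₀ (by norm_num)) hC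
  have hx : x ∈ closure (Rect δ) := subset_closure ⟨hx1, hx2⟩
  have h := Complex.norm_le_of_forall_mem_frontier_norm_le (bounded_rect δ) hH hfr hx
  have e : ‖F x * (x - a) ^ M‖ = ‖F x‖ * xi δ x ^ M := by
    rw [norm_mul, norm_pow]
    rfl
  rwa [e] at h

end Pool.Agent.Y983.PC

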